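import Mathlib

set_option autoImplicit false

namespace Pool.Agent.Results.MP_42b70f_co.Circulant

/-- `m` sends each vertex to its partner in a perfect matching of `G`. -/
def IsPM {V : Type} (G : SimpleGraph V) (m : V → V) : Prop := ∀ v, G.Adj v (m v) ∧ m (m v) = v

/-- The perfect matching `m` is sparsely joined: for any two distinct edges `u (m u)` and
`x (m x)` at most one of the four pairs `ux`, `u(m x)`, `(m u)x`, `(m u)(m x)` is an edge. -/
def Sparse {V : Type} (G : SimpleGraph V) (m : V → V) : Prop :=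
  ∀ u x, x ≠ u → x ≠ m u → ∀ a b a' b', (a = u ∨ a = m u) → (b = x ∨ b = m x) →
    (a' = u ∨ a' = m u) → (b' = x ∨ b' = m x) → G.Adj a b → G.Adj a' b' → a = a' ∧ b = b'

/-- Every 4-cycle `v₁v₂v₃v₄` of `G` is caught by `A`: one of its two opposite pairs lies
entirely inside `A` or entirely outside `A`. -/
def CatchesAll {V : Type} (G : SimpleGraph V) (A : Finset V) : Prop :=
  ∀ v₁ v₂ v₃ v₄, v₁ ≠ v₃ → v₂ ≠ v₄ → G.Adj v₁ v₂ → G.Adj v₂ v₃ → G.Adj v₃ v₄ → G.Adj v₄ v₁ →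
    (v₁ ∈ A ↔ v₃ ∈ A) ∨ (v₂ ∈ A ↔ v₄ ∈ A)

/-- The circulant graph on 26 vertices with the differences `±4, ±5, ±7`. -/
def G26 : SimpleGraph (Fin 26) where
  Adj u v := (u.1 + 26 - v.1) % 26 ∈ [4, 5, 7, 19, 21, 22]
  symm := ⟨by decide +kernel⟩
  loopless := ⟨by decide +kernel⟩

instance : DecidableRel G26.Adj := fun u v =>
  inferInstanceAs (Decidable ((u.1 + 26 - v.1) % 26 ∈ [4, 5, 7, 19, 21, 22]))

/-- A perfect matching of the graph. -/
def m26 : Fin 26 → Fin 26 := ![5, 20, 23, 8, 11, 0, 10, 14, 3, 13, 6, 4, 16, 9, 7, 19, 12, 24, 22, 15, 1, 25, 18, 2, 17, 21]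

/-- A list of the vertices; to each vertex are attached the 4-cycles `abcd` whose last vertex
in the list it is. -/
def steps : List (ℕ × List (ℕ × ℕ × ℕ × ℕ)) :=
  [(0, []),
    (7, []),
    (19, []),
    (14, [(0, 7, 14, 19)]),
    (21, [(0, 7, 14, 21), (0, 19, 14, 21)]),
    (12, [(0, 7, 12, 19), (7, 12, 19, 14)]),
    (5, [(0, 5, 12, 7), (0, 5, 12, 19)]),
    (2, [(0, 7, 2, 21), (2, 7, 14, 21)]),
    (24, [(0, 5, 24, 19), (5, 12, 19, 24)]),
    (9, [(2, 9, 5, 24), (2, 7, 14, 9), (2, 9, 14, 21)]),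
    (17, [(2, 21, 17, 24), (5, 12, 17, 24), (12, 17, 24, 19)]),
    (16, [(2, 9, 16, 21), (5, 9, 16, 12), (9, 14, 21, 16), (12, 16, 21, 17)]),
    (23, [(2, 9, 16, 23), (2, 21, 16, 23), (2, 23, 19, 24), (12, 16, 23, 19)]),
    (10, [(5, 9, 14, 10), (5, 10, 17, 12), (5, 10, 17, 24), (10, 14, 21, 17)]),
    (3, [(2, 7, 3, 24), (3, 10, 5, 24), (3, 7, 14, 10), (3, 10, 17, 24)]),
    (4, [(0, 4, 9, 5), (0, 4, 23, 19), (2, 9, 4, 23), (4, 9, 16, 23)]),
    (22, [(0, 7, 3, 22), (0, 21, 17, 22), (3, 10, 17, 22), (3, 22, 17, 24)]),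
    (11, [(0, 4, 11, 7), (4, 9, 16, 11), (4, 11, 16, 23), (7, 11, 16, 12)]),
    (15, [(0, 19, 15, 22), (3, 10, 15, 22), (10, 14, 19, 15), (10, 15, 22, 17)]),
    (18, [(4, 11, 18, 23), (7, 11, 18, 14), (11, 15, 22, 18), (11, 16, 23, 18), (14, 18, 23, 19)]),
    (8, [(3, 7, 12, 8), (3, 8, 15, 10), (3, 8, 15, 22), (4, 8, 15, 11), (8, 12, 19, 15)]),
    (1, [(0, 5, 1, 22), (1, 8, 3, 22), (1, 8, 4, 23), (1, 5, 12, 8), (1, 8, 15, 22), (1, 22, 18, 23)]),
    (25, [(0, 4, 25, 21), (3, 8, 4, 25), (3, 22, 18, 25), (4, 11, 18, 25), (4, 23, 18, 25), (14, 18, 25, 21)]),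
    (6, [(1, 6, 2, 23), (1, 5, 10, 6), (2, 6, 11, 7), (2, 6, 25, 21), (3, 10, 6, 25), (4, 11, 6, 25), (6, 10, 15, 11), (6, 11, 18, 25)]),
    (13, [(1, 6, 13, 8), (2, 6, 13, 9), (4, 8, 13, 9), (6, 10, 17, 13), (6, 11, 18, 13), (6, 13, 18, 25), (8, 12, 17, 13), (9, 13, 18, 14), (13, 17, 22, 18)]),
    (20, [(1, 6, 13, 20), (1, 8, 13, 20), (1, 8, 15, 20), (1, 20, 15, 22), (1, 20, 16, 23), (1, 5, 24, 20), (1, 6, 25, 20), (3, 24, 20, 25), (6, 13, 20, 25), (8, 13, 20, 15), (9, 13, 20, 16), (11, 15, 20, 16), (13, 17, 24, 20), (13, 18, 25, 20), (15, 19, 24, 20), (16, 20, 25, 21)])]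

/-- With `p` the mask of vertices known to lie in `A` and `q` the mask of vertices known not to
lie in `A`: both opposite pairs of the cycle are split. -/
def split (p q : ℕ) (c : ℕ × ℕ × ℕ × ℕ) : Bool :=
  ((p.testBit c.1 && q.testBit c.2.2.1) || (q.testBit c.1 && p.testBit c.2.2.1)) &&
    ((p.testBit c.2.1 && q.testBit c.2.2.2) || (q.testBit c.2.1 && p.testBit c.2.2.2))

/-- The search tree. -/
def refute : List (ℕ × List (ℕ × ℕ × ℕ × ℕ)) → ℕ → ℕ → ℕ → ℕ → Bool
  | [], _, _, _, _ => false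
  | (v, cs) :: r, p, q, i, j =>
    (Nat.ble 13 i || cs.any (split (p ||| 2 ^ v) q) || refute r (p ||| 2 ^ v) q (i + 1) j) &&
    (Nat.ble 13 j || cs.any (split p (q ||| 2 ^ v)) || refute r p (q ||| 2 ^ v) i (j + 1))

theorem check : refute steps 0 0 0 0 = true := by
  decide +kernel

/-- The adjacency of the graph on natural numbers. -/
def adjN (u v : ℕ) : Bool :=
  decide (u < 26) && decide (v < 26) && ((u + 26 - v) % 26 ∈ [4, 5, 7, 19, 21, 22] : Bool)

theorem check_cycles : (steps.all fun s => s.2.all fun c =>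
    adjN c.1 c.2.1 && adjN c.2.1 c.2.2.1 && adjN c.2.2.1 c.2.2.2 && adjN c.2.2.2 c.1) = true := by
  decide +kernel

theorem check_perm : (steps.map Prod.fst).Perm (List.range 26) := by
  decide +kernel

theorem split_sound (f : ℕ → Bool) (p q : ℕ) (hp : ∀ x, p.testBit x = true → f x = true)
    (hq : ∀ x, q.testBit x = true → f x = false) (c : ℕ × ℕ × ℕ × ℕ) (h : split p q c = true) :
    f c.1 ≠ f c.2.2.1 ∧ f c.2.1 ≠ f c.2.2.2 := by
  unfold split at h
  rw [Bool.and_eq_true, Bool.or_eq_true, Bool.or_eq_true, Bool.and_eq_true, Bool.and_eq_true,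
    Bool.and_eq_true, Bool.and_eq_true] at h
  constructor
  · rcases h.1 with h1 | h1
    · rw [hp _ h1.1, hq _ h1.2]
      decide
    · rw [hq _ h1.1, hp _ h1.2]
      decide
  · rcases h.2 with h1 | h1
    · rw [hp _ h1.1, hq _ h1.2]
      decide
    · rw [hq _ h1.1, hp _ h1.2]
      decide

theorem refute_sound (f : ℕ → Bool) : ∀ (l : List (ℕ × List (ℕ × ℕ × ℕ × ℕ))) (p q i j : ℕ),
    refute l p q i j = true → (∀ x, p.testBit x = true → f x = true) →
    (∀ x, q.testBit x = true → f x = false) → i + (l.map Prod.fst).countP f ≤ 13 →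
    j + (l.map Prod.fst).countP (fun x => !f x) ≤ 13 →
    ∃ s ∈ l, ∃ c ∈ s.2, f c.1 ≠ f c.2.2.1 ∧ f c.2.1 ≠ f c.2.2.2 := by
  intro l
  induction l with
  | nil =>
    intro p q i j h
    exact Bool.noConfusion h
  | cons a r ih =>
    obtain ⟨v, cs⟩ := a
    intro p q i j h hp hq hi hj
    unfold refute at h
    rw [Bool.and_eq_true, Bool.or_eq_true, Bool.or_eq_true, Bool.or_eq_true,
      Bool.or_eq_true] at h
    rw [List.map_cons] at hi hj
    rcases hv : f v with _ | _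
    · rw [List.countP_cons_of_neg (by simp [hv])] at hi
      rw [List.countP_cons_of_pos (by simp [hv])] at hj
      have hq' : ∀ x, (q ||| 2 ^ v).testBit x = true → f x = false := by
        intro x hx
        rw [Nat.testBit_or, Nat.testBit_two_pow, Bool.or_eq_true, decide_eq_true_eq] at hx
        rcases hx with hx | hx
        · exact hq x hx
        · rw [← hx]
          exact hv
      rcases h.2 with (h1 | h1) | h1
      · have := Nat.le_of_ble_eq_true h1
        omega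
      · obtain ⟨c, hc, h2⟩ := List.any_eq_true.1 h1
        exact ⟨_, List.mem_cons_self, c, hc, split_sound f _ _ hp hq' c h2⟩
      · obtain ⟨s, hs, h2⟩ := ih _ _ _ _ h1 hp hq' hi (by omega)
        exact ⟨s, List.mem_cons_of_mem _ hs, h2⟩
    · rw [List.countP_cons_of_pos (by simp [hv])] at hi
      rw [List.countP_cons_of_neg (by simp [hv])] at hj
      have hp' : ∀ x, (p ||| 2 ^ v).testBit x = true → f x = true := by
        intro x hx
        rw [Nat.testBit_or, Nat.testBit_two_pow, Bool.or_eq_true, decide_eq_true_eq] at hx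
        rcases hx with hx | hx
        · exact hp x hx
        · rw [← hx]
          exact hv
      rcases h.1 with (h1 | h1) | h1
      · have := Nat.le_of_ble_eq_true h1
        omega
      · obtain ⟨c, hc, h2⟩ := List.any_eq_true.1 h1
        exact ⟨_, List.mem_cons_self, c, hc, split_sound f _ _ hp' hq c h2⟩
      · obtain ⟨s, hs, h2⟩ := ih _ _ _ _ h1 hp' hq (by omega) hj
        exact ⟨s, List.mem_cons_of_mem _ hs, h2⟩

theorem adjN_iff {u v : ℕ} (h : adjN u v = true) :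
    ∃ (hu : u < 26) (hv : v < 26), G26.Adj ⟨u, hu⟩ ⟨v, hv⟩ := by
  unfold adjN at h
  rw [Bool.and_eq_true, Bool.and_eq_true, decide_eq_true_eq, decide_eq_true_eq] at h
  refine ⟨h.1.1, h.1.2, ?_⟩
  change (u + 26 - v) % 26 ∈ [4, 5, 7, 19, 21, 22]
  exact of_decide_eq_true h.2

theorem not_catches (A : Finset (Fin 26)) (hA : A.card = 13) : ¬ CatchesAll G26 A := by
  intro hall
  let f : ℕ → Bool := fun x => if h : x < 26 then decide ((⟨x, h⟩ : Fin 26) ∈ A) else false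
  have hf : ∀ x : Fin 26, f x.1 = decide (x ∈ A) := by
    intro x
    simp [f]
  have count : ∀ (B : Finset (Fin 26)) (g : ℕ → Bool), (∀ x : Fin 26, g x.1 = decide (x ∈ B)) →
      (steps.map Prod.fst).countP g = B.card := by
    intro B g hg
    rw [check_perm.countP_eq, List.countP_eq_length_filter,
      ← List.toFinset_card_of_nodup (List.nodup_range.filter _), ← Finset.card_map
        Fin.valEmbedding]
    congr 1
    ext x
    simp only [List.mem_toFinset, List.mem_filter, List.mem_range, Finset.mem_map,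
      Fin.valEmbedding_apply]
    constructor
    · rintro ⟨h1, h2⟩
      refine ⟨⟨x, h1⟩, ?_, rfl⟩
      have := hg ⟨x, h1⟩
      simp only at this
      rw [this] at h2
      exact of_decide_eq_true h2
    · rintro ⟨y, hy, rfl⟩
      exact ⟨y.2, by rw [hg]; exact decide_eq_true hy⟩
  have h1 := count A f hf
  have h2 := count Aᶜ (fun x => !f x) (by
    intro x
    simp [hf])
  have h3 : (Aᶜ).card = 13 := by
    rw [Finset.card_compl, hA, Fintype.card_fin]
  obtain ⟨s, hs, c, hc, h4, h5⟩ := refute_sound f steps 0 0 0 0 check (by simp) (by simp)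
    (by omega) (by omega)
  have h6 := List.all_eq_true.1 (List.all_eq_true.1 check_cycles s hs) c hc
  rw [Bool.and_eq_true, Bool.and_eq_true, Bool.and_eq_true] at h6
  obtain ⟨⟨⟨a1, a2⟩, a3⟩, a4⟩ := h6
  obtain ⟨b1, b2, c1⟩ := adjN_iff a1
  obtain ⟨_, b3, c2⟩ := adjN_iff a2
  obtain ⟨_, b4, c3⟩ := adjN_iff a3
  obtain ⟨_, _, c4⟩ := adjN_iff a4
  have e1 := hf ⟨c.1, b1⟩
  have e2 := hf ⟨c.2.1, b2⟩
  have e3 := hf ⟨c.2.2.1, b3⟩
  have e4 := hf ⟨c.2.2.2, b4⟩
  simp only at e1 e2 e3 e4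
  rw [e1, e3] at h4
  rw [e2, e4] at h5
  rcases hall ⟨c.1, b1⟩ ⟨c.2.1, b2⟩ ⟨c.2.2.1, b3⟩ ⟨c.2.2.2, b4⟩
    (by intro h; rw [h] at h4; exact h4 rfl) (by intro h; rw [h] at h5; exact h5 rfl)
    c1 c2 c3 c4 with h7 | h7
  · exact h4 (decide_eq_decide.2 h7)
  · exact h5 (decide_eq_decide.2 h7)

theorem no_triangle : ∀ a b c : Fin 26, G26.Adj a b → G26.Adj a c → ¬ G26.Adj b c := by
  decide +kernel

theorem isPM26 : IsPM G26 m26 := by
  unfold IsPM
  decide +kernel

theorem sparse_aux : ∀ u x : Fin 26, x ≠ u → x ≠ m26 u →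
    ¬ (G26.Adj u x ∧ G26.Adj u (m26 x)) ∧ ¬ (G26.Adj u x ∧ G26.Adj (m26 u) x) ∧
    ¬ (G26.Adj u x ∧ G26.Adj (m26 u) (m26 x)) ∧ ¬ (G26.Adj u (m26 x) ∧ G26.Adj (m26 u) x) ∧
    ¬ (G26.Adj u (m26 x) ∧ G26.Adj (m26 u) (m26 x)) ∧
    ¬ (G26.Adj (m26 u) x ∧ G26.Adj (m26 u) (m26 x)) := by
  decide +kernel

theorem sparse26 : Sparse G26 m26 := by
  intro u x h1 h2 a b a' b' ha hb ha' hb' hab hab'
  obtain ⟨k1, k2, k3, k4, k5, k6⟩ := sparse_aux u x h1 h2
  rcases ha with rfl | rfl <;> rcases hb with rfl | rfl <;> rcases ha' with rfl | rfl <;>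
    rcases hb' with rfl | rfl <;> first | exact ⟨rfl, rfl⟩ | (exfalso; tauto)

/-- **Main theorem.** There is a triangle-free graph on 26 vertices with a sparsely joined
perfect matching such that no set of 13 vertices catches all its 4-cycles. -/
theorem result : ∃ (G : SimpleGraph (Fin 26)) (m : Fin 26 → Fin 26),
    G.CliqueFree 3 ∧ IsPM G m ∧ Sparse G m ∧
    ∀ A : Finset (Fin 26), A.card = 13 → ¬ CatchesAll G A := by
  refine ⟨G26, m26, ?_, isPM26, sparse26, not_catches⟩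
  intro s hs
  obtain ⟨a, b, c, hab, hac, hbc, _⟩ := SimpleGraph.is3Clique_iff.1 hs
  exact no_triangle a b c hab hac hbc

end Pool.Agent.Results.MP_42b70f_co.Circulant
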